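import Pool.Agent.Y282.WI.Stm

/-!
# Project WI: the form of the chain of weak types for general `p`
(port of `Pool/Agent/H240R3/WT/TaskC.lean`)
-/

set_option autoImplicit false

namespace Pool.Agent.Y65.WI

open Filter Topology Pool.Agent.H240R3.WT Pool.Agent.Y282.WI

noncomputable section

variable (p a r : ℝ)

theorem chain_w (k l : ℕ) (h : k ≠ l) : wE p (chainEC k l) =
    p + (1 - 2 * p) * (if k + 1 = l then 1 else 0) + (1 - 2 * p) * (if l + 1 = k then 1 else 0) := by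
  unfold chainEC
  by_cases h1 : k + 1 = l
  · have h2 : ¬ (l + 1 = k) := by omega
    simp [h1, h2, wE]; ring
  · by_cases h2 : l + 1 = k
    · simp [h1, h2, wE]; ring
    · simp [h1, h2, wE]

theorem chain_sum (n : ℕ) (t : ℕ → ℝ) (ht0 : ∀ k, n ≤ k → t k = 0) :
    ∑ k ∈ Finset.range n, ∑ l ∈ Finset.range n,
      t k * t l * (if k = l then 0 else wE p (chainEC k l)) =
    p * (∑ k ∈ Finset.range n, t k)^2 - p * ∑ k ∈ Finset.range n, (t k)^2
      + 2 * (1 - 2 * p) * ∑ k ∈ Finset.range n, t k * t (k+1) := by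
  have h1 : ∀ k l, (if k = l then (0:ℝ) else wE p (chainEC k l)) =
      p - (if k = l then p else 0) + (1 - 2 * p) * (if k + 1 = l then 1 else 0)
        + (1 - 2 * p) * (if l + 1 = k then 1 else 0) := by
    intro k l
    by_cases h : k = l
    · subst h; simp
    · rw [if_neg h, if_neg h, chain_w p k l h]; ring
  simp_rw [h1]
  have h2 : ∀ k l, t k * t l * (p - (if k = l then p else 0) +
      (1 - 2 * p) * (if k + 1 = l then 1 else 0) + (1 - 2 * p) * (if l + 1 = k then 1 else 0)) =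
      p * (t k * t l) - p * (if k = l then t k * t l else 0) +
      (1 - 2 * p) * (if k + 1 = l then t k * t l else 0) +
      (1 - 2 * p) * (if l + 1 = k then t k * t l else 0) := by
    intro k l
    split_ifs <;> ring
  simp_rw [h2]
  simp only [Finset.sum_add_distrib, Finset.sum_sub_distrib, ← Finset.mul_sum]
  have e1 : ∑ k ∈ Finset.range n, ∑ l ∈ Finset.range n, (if k = l then t k * t l else 0) =
      ∑ k ∈ Finset.range n, (t k)^2 := by
    refine Finset.sum_congr rfl fun k hk => ?_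
    rw [Finset.sum_ite_eq]
    simp [Finset.mem_range.mp hk, sq]
  have e2 : ∑ k ∈ Finset.range n, ∑ l ∈ Finset.range n, (if k + 1 = l then t k * t l else 0) =
      ∑ k ∈ Finset.range n, t k * t (k+1) := by
    refine Finset.sum_congr rfl fun k hk => ?_
    rw [Finset.sum_ite_eq]
    by_cases h : k + 1 < n
    · simp [h]
    · rw [if_neg (by simpa using h), ht0 (k+1) (by omega)]; ring
  have e3 : ∑ k ∈ Finset.range n, ∑ l ∈ Finset.range n, (if l + 1 = k then t k * t l else 0) =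
      ∑ k ∈ Finset.range n, t k * t (k+1) := by
    rw [Finset.sum_comm, ← e2]
    refine Finset.sum_congr rfl fun k hk => Finset.sum_congr rfl fun l hl => ?_
    split_ifs <;> ring
  have e4 : ∑ k ∈ Finset.range n, t k * ∑ l ∈ Finset.range n, t l =
      (∑ k ∈ Finset.range n, t k)^2 := by
    rw [← Finset.sum_mul, sq]
  rw [e1, e2, e3, e4]
  ring

theorem sos_chain (n : ℕ) (t : ℕ → ℝ) (ht0 : ∀ k, n ≤ k → t k = 0)
    (hp : a * (1 + r ^ 2) = p) (hr : a * r = 1 - 2 * p) :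
    a * ∑ k ∈ Finset.range n, (t (k+1) - r * t k)^2 =
    p * ∑ k ∈ Finset.range n, (t k)^2 - 2 * (1 - 2 * p) * ∑ k ∈ Finset.range n, t k * t (k+1)
      - a * (t 0)^2 := by
  have h1 : ∑ k ∈ Finset.range n, (t (k+1))^2 = ∑ k ∈ Finset.range n, (t k)^2 - (t 0)^2 := by
    have h2 := Finset.sum_range_succ' (fun k => (t k)^2) n
    have h3 := Finset.sum_range_succ (fun k => (t k)^2) n
    rw [ht0 n le_rfl] at h3
    linarith
  have h4 : ∀ k, (t (k+1) - r * t k)^2 = (t (k+1))^2 - (2 * r) * (t k * t (k+1)) + r ^ 2 * (t k)^2 := by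
    intro k; ring
  simp_rw [h4]
  rw [Finset.sum_add_distrib, Finset.sum_sub_distrib, ← Finset.mul_sum, ← Finset.mul_sum, h1]
  linear_combination (∑ k ∈ Finset.range n, (t k)^2) * hp -
    2 * (∑ k ∈ Finset.range n, t k * t (k+1)) * hr

/-- coefficient of `s` in the mixed part -/
def mixa (i : Fin 11) : ℝ := ![p, p, (1 - p), (1 - p), (1 - p), (1 - p), 1, 1, 1, 1, 1] i
/-- coefficient of `t 0` in the mixed part -/
def mixb (i : Fin 11) : ℝ := ![0, (1 - 2 * p), -(1 - 2 * p), 0, 0, 0, 0, 0, 0, 0, 0] i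

theorem mix_w (i : Fin 11) (k : ℕ) : wE p (mixEC i k) = mixa p i + mixb p i * (if k = 0 then 1 else 0) := by
  rcases Nat.eq_zero_or_pos k with rfl | hk
  · fin_cases i <;> simp [mixEC, wE, mixa, mixb] <;> ring
  · obtain ⟨k, rfl⟩ : ∃ k', k = k' + 1 := ⟨k - 1, by omega⟩
    fin_cases i <;> simp [mixEC, wE, mixa, mixb] <;> ring

theorem mix_sum (n : ℕ) (t : ℕ → ℝ) (ht0 : ∀ k, n ≤ k → t k = 0) (i : Fin 11) :
    ∑ k ∈ Finset.range n, t k * wE p (mixEC i k) =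
      mixa p i * (∑ k ∈ Finset.range n, t k) + mixb p i * t 0 := by
  simp_rw [mix_w]
  have h : ∀ k, t k * (mixa p i + mixb p i * (if k = 0 then 1 else 0)) =
      mixa p i * t k + mixb p i * (if k = 0 then t k else 0) := by
    intro k; split_ifs <;> ring
  simp_rw [h]
  rw [Finset.sum_add_distrib, ← Finset.mul_sum, ← Finset.mul_sum, Finset.sum_ite_eq']
  by_cases hn : 0 < n
  · simp [hn]
  · have : n = 0 := by omega
    subst this
    simp [ht0 0 le_rfl]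

/-- core weights -/
def coreW (i j : Fin 11) : ℝ :=
  if i = j then (if i = 0 then p else 0) else wE p (coreEC i.val j.val)

theorem cw_0_0 : coreW p 0 0 = p := by simp [coreW]
theorem cw_0_1 : coreW p 0 1 = p := by simp [coreW, coreEC, wE]
theorem cw_0_2 : coreW p 0 2 = (1 - p) := by simp [coreW, coreEC, wE]
theorem cw_0_3 : coreW p 0 3 = (1 - p) := by simp [coreW, coreEC, wE]
theorem cw_0_4 : coreW p 0 4 = (1 - p) := by simp [coreW, coreEC, wE]
theorem cw_0_5 : coreW p 0 5 = (1 - p) := by simp [coreW, coreEC, wE]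
theorem cw_0_6 : coreW p 0 6 = 1 := by simp [coreW, coreEC, wE]
theorem cw_0_7 : coreW p 0 7 = 1 := by simp [coreW, coreEC, wE]
theorem cw_0_8 : coreW p 0 8 = 1 := by simp [coreW, coreEC, wE]
theorem cw_0_9 : coreW p 0 9 = 1 := by simp [coreW, coreEC, wE]
theorem cw_0_10 : coreW p 0 10 = 1 := by simp [coreW, coreEC, wE]
theorem cw_1_0 : coreW p 1 0 = p := by simp [coreW, coreEC, wE]
theorem cw_1_1 : coreW p 1 1 = 0 := by simp [coreW]
theorem cw_1_2 : coreW p 1 2 = p := by simp [coreW, coreEC, wE]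
theorem cw_1_3 : coreW p 1 3 = (1 - p) := by simp [coreW, coreEC, wE]
theorem cw_1_4 : coreW p 1 4 = 1 := by simp [coreW, coreEC, wE]
theorem cw_1_5 : coreW p 1 5 = (1 - p) := by simp [coreW, coreEC, wE]
theorem cw_1_6 : coreW p 1 6 = 1 := by simp [coreW, coreEC, wE]
theorem cw_1_7 : coreW p 1 7 = 1 := by simp [coreW, coreEC, wE]
theorem cw_1_8 : coreW p 1 8 = 1 := by simp [coreW, coreEC, wE]
theorem cw_1_9 : coreW p 1 9 = 1 := by simp [coreW, coreEC, wE]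
theorem cw_1_10 : coreW p 1 10 = 1 := by simp [coreW, coreEC, wE]
theorem cw_2_0 : coreW p 2 0 = (1 - p) := by simp [coreW, coreEC, wE]
theorem cw_2_1 : coreW p 2 1 = p := by simp [coreW, coreEC, wE]
theorem cw_2_2 : coreW p 2 2 = 0 := by simp [coreW]
theorem cw_2_3 : coreW p 2 3 = 1 := by simp [coreW, coreEC, wE]
theorem cw_2_4 : coreW p 2 4 = 1 := by simp [coreW, coreEC, wE]
theorem cw_2_5 : coreW p 2 5 = (1 - p) := by simp [coreW, coreEC, wE]
theorem cw_2_6 : coreW p 2 6 = (1 - p) := by simp [coreW, coreEC, wE]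
theorem cw_2_7 : coreW p 2 7 = 1 := by simp [coreW, coreEC, wE]
theorem cw_2_8 : coreW p 2 8 = 1 := by simp [coreW, coreEC, wE]
theorem cw_2_9 : coreW p 2 9 = 1 := by simp [coreW, coreEC, wE]
theorem cw_2_10 : coreW p 2 10 = 1 := by simp [coreW, coreEC, wE]
theorem cw_3_0 : coreW p 3 0 = (1 - p) := by simp [coreW, coreEC, wE]
theorem cw_3_1 : coreW p 3 1 = (1 - p) := by simp [coreW, coreEC, wE]
theorem cw_3_2 : coreW p 3 2 = 1 := by simp [coreW, coreEC, wE]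
theorem cw_3_3 : coreW p 3 3 = 0 := by simp [coreW]
theorem cw_3_4 : coreW p 3 4 = p := by simp [coreW, coreEC, wE]
theorem cw_3_5 : coreW p 3 5 = 1 := by simp [coreW, coreEC, wE]
theorem cw_3_6 : coreW p 3 6 = 1 := by simp [coreW, coreEC, wE]
theorem cw_3_7 : coreW p 3 7 = 1 := by simp [coreW, coreEC, wE]
theorem cw_3_8 : coreW p 3 8 = 1 := by simp [coreW, coreEC, wE]
theorem cw_3_9 : coreW p 3 9 = 1 := by simp [coreW, coreEC, wE]
theorem cw_3_10 : coreW p 3 10 = 1 := by simp [coreW, coreEC, wE]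
theorem cw_4_0 : coreW p 4 0 = (1 - p) := by simp [coreW, coreEC, wE]
theorem cw_4_1 : coreW p 4 1 = 1 := by simp [coreW, coreEC, wE]
theorem cw_4_2 : coreW p 4 2 = 1 := by simp [coreW, coreEC, wE]
theorem cw_4_3 : coreW p 4 3 = p := by simp [coreW, coreEC, wE]
theorem cw_4_4 : coreW p 4 4 = 0 := by simp [coreW]
theorem cw_4_5 : coreW p 4 5 = (1 - p) := by simp [coreW, coreEC, wE]
theorem cw_4_6 : coreW p 4 6 = 1 := by simp [coreW, coreEC, wE]
theorem cw_4_7 : coreW p 4 7 = 1 := by simp [coreW, coreEC, wE]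
theorem cw_4_8 : coreW p 4 8 = 1 := by simp [coreW, coreEC, wE]
theorem cw_4_9 : coreW p 4 9 = 1 := by simp [coreW, coreEC, wE]
theorem cw_4_10 : coreW p 4 10 = 1 := by simp [coreW, coreEC, wE]
theorem cw_5_0 : coreW p 5 0 = (1 - p) := by simp [coreW, coreEC, wE]
theorem cw_5_1 : coreW p 5 1 = (1 - p) := by simp [coreW, coreEC, wE]
theorem cw_5_2 : coreW p 5 2 = (1 - p) := by simp [coreW, coreEC, wE]
theorem cw_5_3 : coreW p 5 3 = 1 := by simp [coreW, coreEC, wE]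
theorem cw_5_4 : coreW p 5 4 = (1 - p) := by simp [coreW, coreEC, wE]
theorem cw_5_5 : coreW p 5 5 = 0 := by simp [coreW]
theorem cw_5_6 : coreW p 5 6 = 1 := by simp [coreW, coreEC, wE]
theorem cw_5_7 : coreW p 5 7 = 1 := by simp [coreW, coreEC, wE]
theorem cw_5_8 : coreW p 5 8 = 1 := by simp [coreW, coreEC, wE]
theorem cw_5_9 : coreW p 5 9 = 1 := by simp [coreW, coreEC, wE]
theorem cw_5_10 : coreW p 5 10 = 1 := by simp [coreW, coreEC, wE]
theorem cw_6_0 : coreW p 6 0 = 1 := by simp [coreW, coreEC, wE]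
theorem cw_6_1 : coreW p 6 1 = 1 := by simp [coreW, coreEC, wE]
theorem cw_6_2 : coreW p 6 2 = (1 - p) := by simp [coreW, coreEC, wE]
theorem cw_6_3 : coreW p 6 3 = 1 := by simp [coreW, coreEC, wE]
theorem cw_6_4 : coreW p 6 4 = 1 := by simp [coreW, coreEC, wE]
theorem cw_6_5 : coreW p 6 5 = 1 := by simp [coreW, coreEC, wE]
theorem cw_6_6 : coreW p 6 6 = 0 := by simp [coreW]
theorem cw_6_7 : coreW p 6 7 = (1 - p) := by simp [coreW, coreEC, wE]
theorem cw_6_8 : coreW p 6 8 = 1 := by simp [coreW, coreEC, wE]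
theorem cw_6_9 : coreW p 6 9 = 1 := by simp [coreW, coreEC, wE]
theorem cw_6_10 : coreW p 6 10 = 1 := by simp [coreW, coreEC, wE]
theorem cw_7_0 : coreW p 7 0 = 1 := by simp [coreW, coreEC, wE]
theorem cw_7_1 : coreW p 7 1 = 1 := by simp [coreW, coreEC, wE]
theorem cw_7_2 : coreW p 7 2 = 1 := by simp [coreW, coreEC, wE]
theorem cw_7_3 : coreW p 7 3 = 1 := by simp [coreW, coreEC, wE]
theorem cw_7_4 : coreW p 7 4 = 1 := by simp [coreW, coreEC, wE]
theorem cw_7_5 : coreW p 7 5 = 1 := by simp [coreW, coreEC, wE]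
theorem cw_7_6 : coreW p 7 6 = (1 - p) := by simp [coreW, coreEC, wE]
theorem cw_7_7 : coreW p 7 7 = 0 := by simp [coreW]
theorem cw_7_8 : coreW p 7 8 = (1 - p) := by simp [coreW, coreEC, wE]
theorem cw_7_9 : coreW p 7 9 = 1 := by simp [coreW, coreEC, wE]
theorem cw_7_10 : coreW p 7 10 = 1 := by simp [coreW, coreEC, wE]
theorem cw_8_0 : coreW p 8 0 = 1 := by simp [coreW, coreEC, wE]
theorem cw_8_1 : coreW p 8 1 = 1 := by simp [coreW, coreEC, wE]
theorem cw_8_2 : coreW p 8 2 = 1 := by simp [coreW, coreEC, wE]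
theorem cw_8_3 : coreW p 8 3 = 1 := by simp [coreW, coreEC, wE]
theorem cw_8_4 : coreW p 8 4 = 1 := by simp [coreW, coreEC, wE]
theorem cw_8_5 : coreW p 8 5 = 1 := by simp [coreW, coreEC, wE]
theorem cw_8_6 : coreW p 8 6 = 1 := by simp [coreW, coreEC, wE]
theorem cw_8_7 : coreW p 8 7 = (1 - p) := by simp [coreW, coreEC, wE]
theorem cw_8_8 : coreW p 8 8 = 0 := by simp [coreW]
theorem cw_8_9 : coreW p 8 9 = (1 - p) := by simp [coreW, coreEC, wE]
theorem cw_8_10 : coreW p 8 10 = 1 := by simp [coreW, coreEC, wE]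
theorem cw_9_0 : coreW p 9 0 = 1 := by simp [coreW, coreEC, wE]
theorem cw_9_1 : coreW p 9 1 = 1 := by simp [coreW, coreEC, wE]
theorem cw_9_2 : coreW p 9 2 = 1 := by simp [coreW, coreEC, wE]
theorem cw_9_3 : coreW p 9 3 = 1 := by simp [coreW, coreEC, wE]
theorem cw_9_4 : coreW p 9 4 = 1 := by simp [coreW, coreEC, wE]
theorem cw_9_5 : coreW p 9 5 = 1 := by simp [coreW, coreEC, wE]
theorem cw_9_6 : coreW p 9 6 = 1 := by simp [coreW, coreEC, wE]
theorem cw_9_7 : coreW p 9 7 = 1 := by simp [coreW, coreEC, wE]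
theorem cw_9_8 : coreW p 9 8 = (1 - p) := by simp [coreW, coreEC, wE]
theorem cw_9_9 : coreW p 9 9 = 0 := by simp [coreW]
theorem cw_9_10 : coreW p 9 10 = (1 - p) := by simp [coreW, coreEC, wE]
theorem cw_10_0 : coreW p 10 0 = 1 := by simp [coreW, coreEC, wE]
theorem cw_10_1 : coreW p 10 1 = 1 := by simp [coreW, coreEC, wE]
theorem cw_10_2 : coreW p 10 2 = 1 := by simp [coreW, coreEC, wE]
theorem cw_10_3 : coreW p 10 3 = 1 := by simp [coreW, coreEC, wE]
theorem cw_10_4 : coreW p 10 4 = 1 := by simp [coreW, coreEC, wE]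
theorem cw_10_5 : coreW p 10 5 = 1 := by simp [coreW, coreEC, wE]
theorem cw_10_6 : coreW p 10 6 = 1 := by simp [coreW, coreEC, wE]
theorem cw_10_7 : coreW p 10 7 = 1 := by simp [coreW, coreEC, wE]
theorem cw_10_8 : coreW p 10 8 = 1 := by simp [coreW, coreEC, wE]
theorem cw_10_9 : coreW p 10 9 = (1 - p) := by simp [coreW, coreEC, wE]
theorem cw_10_10 : coreW p 10 10 = 0 := by simp [coreW]

theorem sum11 (f : Fin 11 → ℝ) : ∑ i, f i = f 0 + f 1 + f 2 + f 3 + f 4 + f 5 + f 6 + f 7 +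
    f 8 + f 9 + f 10 := by
  rw [Fin.sum_univ_succ, Fin.sum_univ_succ, Fin.sum_univ_succ, Fin.sum_univ_eight]
  change f 0 + (f 1 + (f 2 + (f 3 + f 4 + f 5 + f 6 + f 7 + f 8 + f 9 + f 10))) = _
  ring

theorem core_sum (x : Fin 11 → ℝ) : ∑ i, ∑ j, x i * x j * coreW p i j =
    p * (x 0)^2 +
    2 * p * (x 0 * x 1 + x 1 * x 2 + x 3 * x 4)
    + 2 * (1 - p) * (x 0 * x 2 + x 0 * x 3 + x 0 * x 4 + x 0 * x 5 + x 1 * x 3 + x 1 * x 5
        + x 2 * x 5 + x 4 * x 5 + x 2 * x 6 + x 6 * x 7 + x 7 * x 8 + x 8 * x 9 + x 9 * x 10)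
    + 2 * (x 0 * x 6 + x 0 * x 7 + x 0 * x 8 + x 0 * x 9 + x 0 * x 10
      + x 1 * x 4 + x 1 * x 6 + x 1 * x 7 + x 1 * x 8 + x 1 * x 9 + x 1 * x 10
      + x 2 * x 3 + x 2 * x 4 + x 2 * x 7 + x 2 * x 8 + x 2 * x 9 + x 2 * x 10
      + x 3 * x 5 + x 3 * x 6 + x 3 * x 7 + x 3 * x 8 + x 3 * x 9 + x 3 * x 10
      + x 4 * x 6 + x 4 * x 7 + x 4 * x 8 + x 4 * x 9 + x 4 * x 10
      + x 5 * x 6 + x 5 * x 7 + x 5 * x 8 + x 5 * x 9 + x 5 * x 10
      + x 6 * x 8 + x 6 * x 9 + x 6 * x 10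
      + x 7 * x 9 + x 7 * x 10
      + x 8 * x 10) := by
  have hr : ∀ i : Fin 11, ∑ j, x i * x j * coreW p i j = x i * (
      x 0 * coreW p i 0 + x 1 * coreW p i 1 + x 2 * coreW p i 2 + x 3 * coreW p i 3 + x 4 * coreW p i 4 +
      x 5 * coreW p i 5 + x 6 * coreW p i 6 + x 7 * coreW p i 7 + x 8 * coreW p i 8 + x 9 * coreW p i 9 +
      x 10 * coreW p i 10) := by
    intro i
    rw [sum11]
    ring
  simp_rw [hr]
  rw [sum11]
  simp only [cw_0_0, cw_0_1, cw_0_2, cw_0_3, cw_0_4, cw_0_5, cw_0_6, cw_0_7, cw_0_8, cw_0_9, cw_0_10, cw_1_0, cw_1_1, cw_1_2, cw_1_3, cw_1_4, cw_1_5, cw_1_6, cw_1_7, cw_1_8, cw_1_9, cw_1_10, cw_2_0, cw_2_1, cw_2_2, cw_2_3, cw_2_4, cw_2_5, cw_2_6, cw_2_7, cw_2_8, cw_2_9, cw_2_10, cw_3_0, cw_3_1, cw_3_2, cw_3_3, cw_3_4, cw_3_5, cw_3_6, cw_3_7, cw_3_8, cw_3_9, cw_3_10, cw_4_0, cw_4_1, cw_4_2, cw_4_3, cw_4_4, cw_4_5, cw_4_6, cw_4_7, cw_4_8, cw_4_9, cw_4_10, cw_5_0, cw_5_1, cw_5_2, cw_5_3,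 cw_5_4, cw_5_5, cw_5_6, cw_5_7, cw_5_8, cw_5_9, cw_5_10, cw_6_0, cw_6_1, cw_6_2, cw_6_3, cw_6_4, cw_6_5, cw_6_6, cw_6_7, cw_6_8, cw_6_9, cw_6_10, cw_7_0, cw_7_1, cw_7_2, cw_7_3, cw_7_4, cw_7_5, cw_7_6, cw_7_7, cw_7_8, cw_7_9, cw_7_10, cw_8_0, cw_8_1, cw_8_2, cw_8_3, cw_8_4, cw_8_5, cw_8_6, cw_8_7, cw_8_8, cw_8_9, cw_8_10, cw_9_0, cw_9_1, cw_9_2, cw_9_3, cw_9_4, cw_9_5, cw_9_6, cw_9_7, cw_9_8, cw_9_9, cw_9_10, cw_10_0, cw_10_1, cw_10_2, cw_10_3, cw_10_4, cw_10_5, cw_10_6, cw_10_7, cw_10_8, cw_10_9, cw_10_10]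
  ring

open Classical in
theorem form_split (n : ℕ) (z : (Fin 11 ⊕ Fin n) → ℝ) (t : ℕ → ℝ)
    (ht : ∀ k : Fin n, t k = z (Sum.inr k)) :
    form p (T n) z = (∑ i : Fin 11, ∑ j : Fin 11, z (Sum.inl i) * z (Sum.inl j) * coreW p i j) +
      2 * (∑ i : Fin 11, z (Sum.inl i) * ∑ k ∈ Finset.range n, t k * wE p (mixEC i k)) +
      ∑ k ∈ Finset.range n, ∑ l ∈ Finset.range n,
        t k * t l * (if k = l then 0 else wE p (chainEC k l)) := by
  have e : form p (T n) z = ∑ u : Fin 11 ⊕ Fin n, ∑ v : Fin 11 ⊕ Fin n,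
      z u * z v * Wm p (T n) u v := rfl
  have w1 : ∀ i j : Fin 11, Wm p (T n) (Sum.inl i : Fin 11 ⊕ Fin n) (Sum.inl j : Fin 11 ⊕ Fin n) =
      coreW p i j := by
    intro i j
    unfold Wm coreW
    by_cases h : i = j
    · subst h
      rw [if_pos rfl, if_pos rfl]
      change wV p (if i = 0 then VC.red else VC.white) = _
      split_ifs <;> simp [wV]
    · rw [if_neg h]
      exact if_neg (fun h2 => h (Sum.inl.inj h2))
  have w2 : ∀ (i : Fin 11) (k : Fin n),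
      Wm p (T n) (Sum.inl i : Fin 11 ⊕ Fin n) (Sum.inr k : Fin 11 ⊕ Fin n) = wE p (mixEC i k) := by
    intro i k
    unfold Wm
    exact if_neg (by intro h; exact Sum.inl_ne_inr h)
  have w3 : ∀ (i : Fin 11) (k : Fin n),
      Wm p (T n) (Sum.inr k : Fin 11 ⊕ Fin n) (Sum.inl i : Fin 11 ⊕ Fin n) = wE p (mixEC i k) := by
    intro i k
    unfold Wm
    exact if_neg (by intro h; exact Sum.inr_ne_inl h)
  have w4 : ∀ (k l : Fin n),
      Wm p (T n) (Sum.inr k : Fin 11 ⊕ Fin n) (Sum.inr l : Fin 11 ⊕ Fin n) =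
        if (k : ℕ) = l then 0 else wE p (chainEC k l) := by
    intro k l
    unfold Wm
    by_cases h : (k : ℕ) = l
    · have h' : k = l := Fin.ext h
      subst h'
      rw [if_pos rfl, if_pos rfl]
      rfl
    · rw [if_neg h]
      exact if_neg (fun h2 => h (congrArg Fin.val (Sum.inr.inj h2)))
  rw [e, Fintype.sum_sum_type]
  simp_rw [Fintype.sum_sum_type]
  simp only [w1, w2, w3, w4, ← ht, Finset.sum_add_distrib]
  have c1 : ∑ i : Fin 11, ∑ k : Fin n, z (Sum.inl i) * t k * wE p (mixEC i k) =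
      ∑ i : Fin 11, z (Sum.inl i) * ∑ k ∈ Finset.range n, t k * wE p (mixEC i k) := by
    refine Finset.sum_congr rfl fun i _ => ?_
    rw [Finset.sum_range, Finset.mul_sum]
    exact Finset.sum_congr rfl fun k _ => by ring
  have c2 : ∑ k : Fin n, ∑ i : Fin 11, t k * z (Sum.inl i) * wE p (mixEC i k) =
      ∑ i : Fin 11, z (Sum.inl i) * ∑ k ∈ Finset.range n, t k * wE p (mixEC i k) := by
    rw [Finset.sum_comm, ← c1]
    exact Finset.sum_congr rfl fun i _ => Finset.sum_congr rfl fun k _ => by ring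
  have c3 : ∑ k : Fin n, ∑ l : Fin n, t k * t l * (if (k : ℕ) = l then 0 else wE p (chainEC k l)) =
      ∑ k ∈ Finset.range n, ∑ l ∈ Finset.range n,
        t k * t l * (if k = l then 0 else wE p (chainEC k l)) := by
    rw [Finset.sum_range]
    refine Finset.sum_congr rfl fun k _ => ?_
    rw [Finset.sum_range]
  rw [c1, c2, c3]
  ring

theorem main : S_F := by
  intro p a r hp hr n z t ht ht0 hsum
  rw [form_split p n z t ht, core_sum p (fun i => z (Sum.inl i))]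
  simp only [mix_sum p n t ht0]
  rw [chain_sum p n t ht0, sum11]
  have hs := sos_chain p a r n t ht0 hp hr
  have htot : z (Sum.inl 0) + z (Sum.inl 1) + z (Sum.inl 2) + z (Sum.inl 3) + z (Sum.inl 4) +
      z (Sum.inl 5) + z (Sum.inl 6) + z (Sum.inl 7) + z (Sum.inl 8) + z (Sum.inl 9) +
      z (Sum.inl 10) + ∑ k ∈ Finset.range n, t k = 1 := by
    rw [Fintype.sum_sum_type, sum11] at hsum
    rw [Finset.sum_range]
    have : ∑ k : Fin n, t k = ∑ k : Fin n, z (Sum.inr k) := Finset.sum_congr rfl fun k _ => ht k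
    rw [this]
    exact hsum
  have a0 : mixa p 0 = p := rfl
  have a1 : mixa p 1 = p := rfl
  have a2 : mixa p 2 = (1 - p) := rfl
  have a3 : mixa p 3 = (1 - p) := rfl
  have a4 : mixa p 4 = (1 - p) := rfl
  have a5 : mixa p 5 = (1 - p) := rfl
  have a6 : mixa p 6 = 1 := rfl
  have a7 : mixa p 7 = 1 := rfl
  have a8 : mixa p 8 = 1 := rfl
  have a9 : mixa p 9 = 1 := rfl
  have a10 : mixa p 10 = 1 := rfl
  have b0 : mixb p 0 = 0 := rfl
  have b1 : mixb p 1 = (1 - 2 * p) := rfl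
  have b2 : mixb p 2 = -(1 - 2 * p) := rfl
  have b3 : mixb p 3 = 0 := rfl
  have b4 : mixb p 4 = 0 := rfl
  have b5 : mixb p 5 = 0 := rfl
  have b6 : mixb p 6 = 0 := rfl
  have b7 : mixb p 7 = 0 := rfl
  have b8 : mixb p 8 = 0 := rfl
  have b9 : mixb p 9 = 0 := rfl
  have b10 : mixb p 10 = 0 := rfl
  simp only [a0, a1, a2, a3, a4, a5, a6, a7, a8, a9, a10, b0, b1, b2, b3, b4, b5, b6, b7, b8, b9,
    b10]
  change _ = 1 - (((1 - p) * (z (Sum.inl 0) + ∑ k ∈ Finset.range n, t k)^2 + z (Sum.inl 1)^2 +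
    z (Sum.inl 2)^2 + z (Sum.inl 3)^2 + z (Sum.inl 4)^2 + z (Sum.inl 5)^2 + z (Sum.inl 6)^2 +
    z (Sum.inl 7)^2 + z (Sum.inl 8)^2 + z (Sum.inl 9)^2 + z (Sum.inl 10)^2
     + 2 * (1 - p) * ((z (Sum.inl 0) + ∑ k ∈ Finset.range n, t k) * z (Sum.inl 1) +
       z (Sum.inl 1) * z (Sum.inl 2) + z (Sum.inl 3) * z (Sum.inl 4))
     + 2 * p * ((z (Sum.inl 0) + ∑ k ∈ Finset.range n, t k) * z (Sum.inl 2) +
        (z (Sum.inl 0) + ∑ k ∈ Finset.range n, t k) * z (Sum.inl 3) +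
        (z (Sum.inl 0) + ∑ k ∈ Finset.range n, t k) * z (Sum.inl 4) +
        (z (Sum.inl 0) + ∑ k ∈ Finset.range n, t k) * z (Sum.inl 5) +
        z (Sum.inl 1) * z (Sum.inl 3) + z (Sum.inl 1) * z (Sum.inl 5)
        + z (Sum.inl 2) * z (Sum.inl 5) + z (Sum.inl 4) * z (Sum.inl 5) +
        z (Sum.inl 2) * z (Sum.inl 6) + z (Sum.inl 6) * z (Sum.inl 7) +
        z (Sum.inl 7) * z (Sum.inl 8) + z (Sum.inl 8) * z (Sum.inl 9) +
        z (Sum.inl 9) * z (Sum.inl 10))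
     + 2 * (1 - 2 * p) * (z (Sum.inl 2) - z (Sum.inl 1)) * t 0
     + a * t 0 ^2)
    + a * ∑ k ∈ Finset.range n, (t (k+1) - r * t k)^2)
  rw [hs]
  have hsq : (1 : ℝ) = (z (Sum.inl 0) + z (Sum.inl 1) + z (Sum.inl 2) + z (Sum.inl 3) +
      z (Sum.inl 4) +
      z (Sum.inl 5) + z (Sum.inl 6) + z (Sum.inl 7) + z (Sum.inl 8) + z (Sum.inl 9) +
      z (Sum.inl 10) + ∑ k ∈ Finset.range n, t k)^2 := by rw [htot]; norm_num
  generalize ∑ k ∈ Finset.range n, t k = s at *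
  generalize ∑ k ∈ Finset.range n, (t k)^2 = s2 at *
  generalize ∑ k ∈ Finset.range n, t k * t (k+1) = s3 at *
  generalize z (Sum.inl 0) = x0 at *
  generalize z (Sum.inl 1) = x1 at *
  generalize z (Sum.inl 2) = x2 at *
  generalize z (Sum.inl 3) = x3 at *
  generalize z (Sum.inl 4) = x4 at *
  generalize z (Sum.inl 5) = x5 at *
  generalize z (Sum.inl 6) = x6 at *
  generalize z (Sum.inl 7) = x7 at *
  generalize z (Sum.inl 8) = x8 at *
  generalize z (Sum.inl 9) = x9 at *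
  generalize z (Sum.inl 10) = x10 at *
  linear_combination (-1 : ℝ) * hsq

end

end Pool.Agent.Y65.WI
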