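import Pool.Agent.Y282.WI.Stm

/-!
# Project WI: the optimum at `p = 53/120`
-/

set_option autoImplicit false

namespace Pool.Agent.Y65.WI

open Filter Topology Pool.Agent.H240R3.WT Pool.Agent.Y282.WI

/-- the optimum -/
noncomputable def xo : Fin 12 → ℝ := ![13210125809811/110613759015965, 1928850184709/221227518031930,
  500432163791/110613759015965, 29279169903471/221227518031930, 2123192772589/221227518031930,
  29084827315591/221227518031930, 18523008406881/110613759015965, 1244695986408/22122751803193,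
  3209778537718/22122751803193, 6102203601431/110613759015965, 18797596325241/110613759015965,
  132569408161/110613759015965]

theorem sum12 (f : Fin 12 → ℝ) : ∑ i, f i = f 0 + f 1 + f 2 + f 3 + f 4 + f 5 + f 6 + f 7 +
    f 8 + f 9 + f 10 + f 11 := by
  rw [Fin.sum_univ_succ, Fin.sum_univ_succ, Fin.sum_univ_succ, Fin.sum_univ_succ,
    Fin.sum_univ_eight]
  change f 0 + (f 1 + (f 2 + (f 3 + (f 4 + f 5 + f 6 + f 7 + f 8 + f 9 + f 10 + f 11)))) = _
  ring

lemma xo0 : xo 0 = 13210125809811/110613759015965 := rfl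
lemma xo1 : xo 1 = 1928850184709/221227518031930 := rfl
lemma xo2 : xo 2 = 500432163791/110613759015965 := rfl
lemma xo3 : xo 3 = 29279169903471/221227518031930 := rfl
lemma xo4 : xo 4 = 2123192772589/221227518031930 := rfl
lemma xo5 : xo 5 = 29084827315591/221227518031930 := rfl
lemma xo6 : xo 6 = 18523008406881/110613759015965 := rfl
lemma xo7 : xo 7 = 1244695986408/22122751803193 := rfl
lemma xo8 : xo 8 = 3209778537718/22122751803193 := rfl
lemma xo9 : xo 9 = 6102203601431/110613759015965 := rfl
lemma xo10 : xo 10 = 18797596325241/110613759015965 := rfl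
lemma xo11 : xo 11 = 132569408161/110613759015965 := rfl

theorem mainP2 : S_P2 := by
  refine ⟨2579128349904763/13273651081915800, xo, by norm_num, by norm_num, ?_, ?_, ?_, ?_⟩
  · intro i
    fin_cases i
    · change 0 < xo 0; rw [xo0]; norm_num
    · change 0 < xo 1; rw [xo1]; norm_num
    · change 0 < xo 2; rw [xo2]; norm_num
    · change 0 < xo 3; rw [xo3]; norm_num
    · change 0 < xo 4; rw [xo4]; norm_num
    · change 0 < xo 5; rw [xo5]; norm_num
    · change 0 < xo 6; rw [xo6]; norm_num
    · change 0 < xo 7; rw [xo7]; norm_num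
    · change 0 < xo 8; rw [xo8]; norm_num
    · change 0 < xo 9; rw [xo9]; norm_num
    · change 0 < xo 10; rw [xo10]; norm_num
    · change 0 < xo 11; rw [xo11]; norm_num
  · rw [xo0, xo11]
    norm_num
  · rw [xo0, xo1, xo2, xo3, xo4, xo5, xo6, xo7, xo8, xo9, xo10]
    norm_num
  · have hmv : ∀ i, (Am (53 / 120) (49 / 120)).mulVec xo i =
        Am (53 / 120) (49 / 120) i 0 * xo 0 + Am (53 / 120) (49 / 120) i 1 * xo 1 +
        Am (53 / 120) (49 / 120) i 2 * xo 2 + Am (53 / 120) (49 / 120) i 3 * xo 3 +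
        Am (53 / 120) (49 / 120) i 4 * xo 4 + Am (53 / 120) (49 / 120) i 5 * xo 5 +
        Am (53 / 120) (49 / 120) i 6 * xo 6 + Am (53 / 120) (49 / 120) i 7 * xo 7 +
        Am (53 / 120) (49 / 120) i 8 * xo 8 + Am (53 / 120) (49 / 120) i 9 * xo 9 +
        Am (53 / 120) (49 / 120) i 10 * xo 10 + Am (53 / 120) (49 / 120) i 11 * xo 11 := by
      intro i
      rw [Matrix.mulVec, dotProduct, sum12]
    funext i
    rw [hmv, xo0, xo1, xo2, xo3, xo4, xo5, xo6, xo7, xo8, xo9, xo10, xo11]
    fin_cases i
    all_goals simp [Am]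
    all_goals norm_num

end Pool.Agent.Y65.WI
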